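import Mathlib

/-!
# Nonsingular Bezout, elementary

`bez`: polynomials `P_1, .., P_s` of degree at most `D` in `s` variables over a field have at most `D^s` common zeros at which the
Jacobian matrix is invertible.

Proof. Let `S` be a finite set of such zeros, `b_x` (`x ∈ S`) polynomials with `b_x(y) = δ`. The polynomials `b_x P^β` are linearly
independent (lowest terms at `y ∈ S`). Those with `|β| ≤ T` have degree at most `c + D T`, so `|S| a(T) ≤ a(c + D T) ≤ D^s a(T + c)`,
where `a(T)` is the number of `β` with `|β| ≤ T`. If `|S| > D^s`, then `a(j c)` grows exponentially in `j`, contradiction.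
-/

set_option autoImplicit false
set_option linter.unusedSectionVars false

namespace Pool.Agent.H34.WB

open MvPolynomial

variable {F : Type*} [Field F] {σ : Type*} [Fintype σ] [DecidableEq σ]

/-- `p(y + τ h)`, a polynomial in `τ` with coefficients in `F[h]` -/
private noncomputable def Phi (y : σ → F) : MvPolynomial (σ) F →ₐ[F] Polynomial (MvPolynomial (σ) F) :=
  aeval fun j => Polynomial.C (C (y j)) + Polynomial.X * Polynomial.C (X j)

private theorem phi_X (y : σ → F) (j : σ) :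
    Phi y (X j) = Polynomial.C (C (y j)) + Polynomial.X * Polynomial.C (X j) := by
  rw [Phi, aeval_X]

private theorem phi_C (y : σ → F) (a : F) : Phi y (C a) = Polynomial.C (C a) := by
  rw [Phi, aeval_C]
  rfl

private theorem phi_zero (y : σ → F) (p : MvPolynomial (σ) F) :
    (Phi y p).coeff 0 = C (eval y p) := by
  induction p using MvPolynomial.induction_on with
  | C a => rw [phi_C, Polynomial.coeff_C_zero, eval_C]
  | add p q hp hq => rw [map_add, Polynomial.coeff_add, hp, hq, map_add, C_add]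
  | mul_X p i hp =>
    rw [map_mul, phi_X, Polynomial.mul_coeff_zero, hp, Polynomial.coeff_add, Polynomial.coeff_C_zero,
      Polynomial.coeff_X_mul_zero, add_zero, map_mul, eval_X, C_mul]

private theorem phi_one (y : σ → F) (p : MvPolynomial (σ) F) :
    (Phi y p).coeff 1 = ∑ j, C (eval y (pderiv j p)) * X j := by
  induction p using MvPolynomial.induction_on with
  | C a =>
    rw [phi_C, Polynomial.coeff_C]
    simp
  | add p q hp hq =>
    rw [map_add, Polynomial.coeff_add, hp, hq, ← Finset.sum_add_distrib]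
    refine Finset.sum_congr rfl fun j _ => ?_
    rw [map_add, map_add, C_add, add_mul]
  | mul_X p i hp =>
    rw [map_mul, phi_X, Polynomial.mul_coeff_one, phi_zero, hp]
    have h1 : (Polynomial.C (C (y i)) + Polynomial.X * Polynomial.C (X i) :
        Polynomial (MvPolynomial (σ) F)).coeff 1 = X i := by
      rw [Polynomial.coeff_add, Polynomial.coeff_C, if_neg one_ne_zero, zero_add, Polynomial.coeff_X_mul,
        Polynomial.coeff_C_zero]
    have h0 : (Polynomial.C (C (y i)) + Polynomial.X * Polynomial.C (X i) :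
        Polynomial (MvPolynomial (σ) F)).coeff 0 = C (y i) := by
      rw [Polynomial.coeff_add, Polynomial.coeff_C_zero, Polynomial.coeff_X_mul_zero, add_zero]
    rw [h1, h0]
    have h2 : ∀ j, C (eval y (pderiv j (p * X i))) * X j =
        C (eval y (pderiv j p)) * X j * C (y i) + (if j = i then C (eval y p) * X i else 0 :
          MvPolynomial (σ) F) := by
      intro j
      rw [Derivation.leibniz, pderiv_X, smul_eq_mul, smul_eq_mul, map_add, map_mul, map_mul, eval_X, C_add, C_mul,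
        C_mul]
      by_cases h : j = i
      · subst h
        rw [if_pos rfl, Pi.single_eq_same, map_one, C_1]
        ring
      · rw [if_neg h, Pi.single_eq_of_ne (Ne.symm h), map_zero, C_0]
        ring
    rw [Finset.sum_congr rfl fun j _ => h2 j, Finset.sum_add_distrib, Finset.sum_ite_eq' Finset.univ i, if_pos
      (Finset.mem_univ i), Finset.sum_mul, add_comm]

/-- linear independence of the `b_x P^β` -/
private theorem indep (P : σ → MvPolynomial (σ) F) (S : Finset (σ → F))
    (h0 : ∀ x ∈ S, ∀ i, eval x (P i) = 0)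
    (hJ : ∀ x ∈ S, IsUnit (Matrix.of fun i j => eval x (pderiv j (P i))).det)
    (b : (σ → F) → MvPolynomial (σ) F) (hb1 : ∀ x ∈ S, eval x (b x) = 1)
    (hb0 : ∀ x ∈ S, ∀ y ∈ S, x ≠ y → eval y (b x) = 0)
    (B : Finset (σ →₀ ℕ)) (g : (σ → F) → (σ →₀ ℕ) → F)
    (hg : ∑ x ∈ S, ∑ β ∈ B, C (g x β) * (b x * ∏ i, P i ^ β i) = 0) :
    ∀ t : ℕ, ∀ β ∈ B, ∑ i, β i = t → ∀ x ∈ S, g x β = 0 := by
  classical
  intro t
  induction t using Nat.strong_induction_on with
  | _ t ih =>
  intro β₀ hβ₀ hdeg y hy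
  -- division by `τ`
  have hU : ∀ i, ∃ U : Polynomial (MvPolynomial (σ) F), Phi y (P i) = Polynomial.X * U ∧
      U.coeff 0 = ∑ j, C (eval y (pderiv j (P i))) * X j := by
    intro i
    have h1 : Polynomial.X ∣ Phi y (P i) := by
      rw [Polynomial.X_dvd_iff, phi_zero, h0 y hy i, C_0]
    obtain ⟨U, hU⟩ := h1
    refine ⟨U, hU, ?_⟩
    rw [← phi_one, hU, Polynomial.coeff_X_mul]
  choose U hU hU0 using hU
  have hprod : ∀ β : σ →₀ ℕ, Phi y (∏ i, P i ^ β i) = Polynomial.X ^ (∑ i, β i) * ∏ i, U i ^ β i := by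
    intro β
    rw [map_prod, ← Finset.prod_pow_eq_pow_sum, ← Finset.prod_mul_distrib]
    refine Finset.prod_congr rfl fun i _ => ?_
    rw [map_pow, hU, mul_pow]
  -- the relation after `Phi y`, divided by `τ^t`
  have h1 : Polynomial.X ^ t * (∑ x ∈ S, ∑ β ∈ B, Polynomial.C (C (g x β)) *
      (Phi y (b x) * (Polynomial.X ^ (∑ i, β i - t) * ∏ i, U i ^ β i))) = 0 := by
    have h2 := congrArg (Phi y) hg
    rw [map_sum, map_zero] at h2
    rw [← h2, Finset.mul_sum]
    refine Finset.sum_congr rfl fun x hx => ?_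
    rw [map_sum, Finset.mul_sum]
    refine Finset.sum_congr rfl fun β hβ => ?_
    rw [map_mul, map_mul, phi_C, hprod]
    by_cases hlt : ∑ i, β i < t
    · rw [ih _ hlt β hβ rfl x hx, C_0, Polynomial.C_0]
      ring
    · push Not at hlt
      obtain ⟨e, he⟩ := Nat.exists_eq_add_of_le hlt
      rw [he, Nat.add_sub_cancel_left, pow_add]
      ring
  have h2 := (mul_eq_zero.1 h1).resolve_left (pow_ne_zero _ Polynomial.X_ne_zero)
  have h3 := congrArg (fun p => Polynomial.coeff p 0) h2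
  simp only [Polynomial.finsetSum_coeff, Polynomial.mul_coeff_zero, Polynomial.coeff_C_zero,
    Polynomial.coeff_zero, phi_zero] at h3
  -- only `x = y` and `|β| = t` remain
  have h4 : ∑ β ∈ B.filter (fun β => ∑ i, β i = t), C (g y β) * ∏ i, (∑ j, C (eval y (pderiv j (P i))) * X j) ^ β i =
      (0 : MvPolynomial (σ) F) := by
    rw [← h3, Finset.sum_eq_single_of_mem y hy]
    · rw [Finset.sum_filter]
      refine Finset.sum_congr rfl fun β hβ => ?_
      rw [hb1 y hy, C_1, one_mul]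
      have h5 : (∏ i, U i ^ β i).coeff 0 = ∏ i, (∑ j, C (eval y (pderiv j (P i))) * X j) ^ β i := by
        rw [← Polynomial.constantCoeff_apply, map_prod]
        refine Finset.prod_congr rfl fun i _ => ?_
        rw [map_pow, Polynomial.constantCoeff_apply, hU0]
      rw [h5]
      split_ifs with h
      · rw [h, Nat.sub_self, pow_zero, Polynomial.coeff_one_zero, one_mul]
      · by_cases hlt : ∑ i, β i < t
        · rw [ih _ hlt β hβ rfl y hy, C_0, zero_mul]
        · have h6 : ∑ i, β i - t ≠ 0 := by omega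
          rw [Polynomial.coeff_X_pow, if_neg (Ne.symm h6), zero_mul, mul_zero]
    · intro x hx hxy
      refine Finset.sum_eq_zero fun β _ => ?_
      rw [hb0 x hx y hy hxy, C_0, zero_mul, mul_zero]
  -- linear substitution
  obtain ⟨A, hA⟩ : ∃ A : Matrix (σ) (σ) F, A = Matrix.of fun i j => eval y (pderiv j (P i)) := ⟨_, rfl⟩
  have hdet : IsUnit A.det := hA ▸ hJ y hy
  have hAA : A * A⁻¹ = 1 := Matrix.mul_nonsing_inv A hdet
  obtain ⟨ψ, hψ⟩ : ∃ ψ : MvPolynomial (σ) F →ₐ[F] MvPolynomial (σ) F,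
      ψ = aeval fun j => ∑ k, C (A⁻¹ j k) * X k := ⟨_, rfl⟩
  have h5 : ∀ i, ψ (∑ j, C (eval y (pderiv j (P i))) * X j) = X i := by
    intro i
    rw [map_sum]
    have h6 : ∀ j, ψ (C (eval y (pderiv j (P i))) * X j) = ∑ k, C (A i j * A⁻¹ j k) * X k := by
      intro j
      rw [map_mul, hψ, aeval_X, aeval_C, Finset.mul_sum]
      refine Finset.sum_congr rfl fun k _ => ?_
      rw [C_mul, hA, mul_assoc]
      rfl
    rw [Finset.sum_congr rfl fun j _ => h6 j, Finset.sum_comm]
    have h7 : ∀ k, ∑ j, C (A i j * A⁻¹ j k) * X k = C (if i = k then (1 : F) else 0) * (X k : MvPolynomial (σ) F) := by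
      intro k
      rw [← Finset.sum_mul, ← map_sum, ← Matrix.mul_apply, hAA, Matrix.one_apply]
    rw [Finset.sum_congr rfl fun k _ => h7 k, Finset.sum_eq_single i]
    · rw [if_pos rfl, C_1, one_mul]
    · intro k _ hk
      rw [if_neg (Ne.symm hk), C_0, zero_mul]
    · intro h
      exact absurd (Finset.mem_univ i) h
  have h6 := congrArg ψ h4
  rw [map_sum, map_zero] at h6
  have h7 : ∑ β ∈ B.filter (fun β => ∑ i, β i = t), monomial β (g y β) = 0 := by
    rw [← h6]
    refine Finset.sum_congr rfl fun β _ => ?_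
    rw [map_mul, map_prod, monomial_eq, Finsupp.prod_fintype]
    · congr 1
      · rw [hψ, aeval_C]
        rfl
      · refine Finset.prod_congr rfl fun i _ => ?_
        rw [map_pow, h5]
    · intro i
      rw [pow_zero]
  have h8 := congrArg (coeff β₀) h7
  rw [coeff_sum, coeff_zero, Finset.sum_eq_single β₀] at h8
  · rwa [coeff_monomial, if_pos rfl] at h8
  · intro β _ hβ
    rw [coeff_monomial, if_neg hβ]
  · intro h
    exact absurd (Finset.mem_filter.2 ⟨hβ₀, hdeg⟩) h

/-- separating polynomials -/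
private theorem sep (S : Finset (σ → F)) : ∃ b : (σ → F) → MvPolynomial (σ) F,
    (∀ x ∈ S, eval x (b x) = 1) ∧ (∀ x ∈ S, ∀ y ∈ S, x ≠ y → eval y (b x) = 0) ∧
      ∀ x, (b x).totalDegree ≤ S.card := by
  classical
  have h1 : ∀ x y : σ → F, ∃ l : MvPolynomial (σ) F, (x ≠ y → eval x l = 1) ∧ (x ≠ y → eval y l = 0) ∧
      l.totalDegree ≤ 1 := by
    intro x y
    by_cases h : x = y
    · exact ⟨0, fun h' => absurd h h', fun h' => absurd h h', by rw [totalDegree_zero]; exact Nat.zero_le _⟩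
    · obtain ⟨i, hi⟩ := Function.ne_iff.1 h
      have hi' : x i - y i ≠ 0 := sub_ne_zero.2 hi
      refine ⟨C ((x i - y i)⁻¹) * (X i - C (y i)), fun _ => ?_, fun _ => ?_, ?_⟩
      · rw [map_mul, eval_C, map_sub, eval_X, eval_C, inv_mul_cancel₀ hi']
      · rw [map_mul, eval_C, map_sub, eval_X, eval_C, sub_self, mul_zero]
      · refine (totalDegree_mul _ _).trans ?_
        rw [totalDegree_C, zero_add]
        refine (totalDegree_sub_C_le _ _).trans ?_
        exact (totalDegree_X (R := F) i).le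
  choose l hl1 hl0 hl using h1
  refine ⟨fun x => ∏ y ∈ S.erase x, l x y, fun x hx => ?_, fun x hx y hy hxy => ?_, fun x => ?_⟩
  · rw [map_prod]
    exact Finset.prod_eq_one fun y hy => hl1 x y (Ne.symm (Finset.ne_of_mem_erase hy))
  · rw [map_prod]
    exact Finset.prod_eq_zero (Finset.mem_erase.2 ⟨Ne.symm hxy, hy⟩) (hl0 x y hxy)
  · refine (totalDegree_finsetProd _ _).trans ?_
    refine (Finset.sum_le_card_nsmul _ _ 1 fun y _ => hl x y).trans ?_
    rw [smul_eq_mul, mul_one]
    exact Finset.card_le_card (Finset.erase_subset _ _)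

/-- number of exponent vectors of degree at most `N` -/
private noncomputable def cnt (σ : Type*) [Fintype σ] (N : ℕ) : ℕ := Nat.card {n : σ →₀ ℕ | (n.sum fun _ e => e) ≤ N}

omit [DecidableEq σ] in
private theorem sum_eq (n : σ →₀ ℕ) : (n.sum fun _ e => e) = ∑ i, n i :=
  Finsupp.sum_fintype _ _ fun _ => rfl

private theorem cnt_finite (σ : Type*) [Fintype σ] (N : ℕ) : {n : σ →₀ ℕ | (n.sum fun _ e => e) ≤ N}.Finite := by
  classical
  refine Set.Finite.subset (Finset.finite_toSet (Finset.Iic (Finsupp.equivFunOnFinite.symm fun _ : σ => N)))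
    fun n hn => ?_
  rw [Finset.mem_coe, Finset.mem_Iic]
  intro i
  rw [Set.mem_ofPred_eq, sum_eq] at hn
  exact (Finset.single_le_sum (fun _ _ => Nat.zero_le _) (Finset.mem_univ i)).trans hn

private theorem cnt_le (σ : Type*) [Fintype σ] (N : ℕ) : cnt σ N ≤ (N + 1) ^ Fintype.card σ := by
  classical
  have h1 : Function.Injective fun (n : {n : σ →₀ ℕ | (n.sum fun _ e => e) ≤ N}) (i : σ) =>
      (⟨n.1 i, Nat.lt_succ_of_le ((Finset.single_le_sum (fun _ _ => Nat.zero_le _) (Finset.mem_univ i)).trans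
        ((sum_eq n.1).symm.le.trans n.2))⟩ : Fin (N + 1)) := by
    intro n n' h
    apply Subtype.ext
    ext i
    have := congrArg Fin.val (congrFun h i)
    exact this
  have h2 := Nat.card_le_card_of_injective _ h1
  rw [Nat.card_eq_fintype_card (α := σ → Fin (N + 1)), Fintype.card_fun, Fintype.card_fin] at h2
  exact h2

private theorem cnt_zero (σ : Type*) [Fintype σ] : 1 ≤ cnt σ 0 := by
  have : Nonempty {n : σ →₀ ℕ | (n.sum fun _ e => e) ≤ 0} := ⟨⟨0, by simp⟩⟩
  have : Finite {n : σ →₀ ℕ | (n.sum fun _ e => e) ≤ 0} := (cnt_finite σ 0).to_subtype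
  exact Nat.card_pos

private theorem cnt_mono (σ : Type*) [Fintype σ] {N N' : ℕ} (h : N ≤ N') : cnt σ N ≤ cnt σ N' :=
  Nat.card_mono (cnt_finite σ N') fun _ hn => le_trans hn h

private theorem cnt_div (σ : Type*) [Fintype σ] {D : ℕ} (hD : 1 ≤ D) (N : ℕ) : cnt σ (D * N) ≤ D ^ Fintype.card σ * cnt σ N := by
  classical
  have : Finite {n : σ →₀ ℕ | (n.sum fun _ e => e) ≤ N} := (cnt_finite σ N).to_subtype
  have h0 : ∀ n : {n : σ →₀ ℕ | (n.sum fun _ e => e) ≤ D * N},
      ((Finsupp.equivFunOnFinite.symm fun i => n.1 i / D : σ →₀ ℕ).sum fun _ e => e) ≤ N := by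
    intro n
    have h1 := n.2
    rw [Set.mem_ofPred_eq, sum_eq] at h1
    rw [sum_eq]
    refine Nat.le_of_mul_le_mul_left (le_trans ?_ h1) hD
    rw [Finset.mul_sum]
    exact Finset.sum_le_sum fun i _ => Nat.mul_div_le _ _
  have h1 : Function.Injective fun (n : {n : σ →₀ ℕ | (n.sum fun _ e => e) ≤ D * N}) =>
      ((fun i => (⟨n.1 i % D, Nat.mod_lt _ hD⟩ : Fin D), ⟨_, h0 n⟩) :
        (σ → Fin D) × {n : σ →₀ ℕ | (n.sum fun _ e => e) ≤ N}) := by
    intro n n' h
    rw [Prod.mk.injEq] at h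
    apply Subtype.ext
    ext i
    have h2 := congrArg Fin.val (congrFun h.1 i)
    have h3 := DFunLike.congr_fun (congrArg Subtype.val h.2) i
    have h4 : n.1 i % D = n'.1 i % D := h2
    have h5 : n.1 i / D = n'.1 i / D := h3
    rw [← Nat.div_add_mod (n.1 i) D, h4, h5, Nat.div_add_mod]
  have h2 := Nat.card_le_card_of_injective _ h1
  rw [Nat.card_prod, Nat.card_eq_fintype_card (α := σ → Fin D), Fintype.card_fun, Fintype.card_fin] at h2
  exact h2

private theorem card_mul_le (P : σ → MvPolynomial (σ) F) (D : ℕ) (hD : ∀ i, (P i).totalDegree ≤ D)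
    (S : Finset (σ → F)) (h0 : ∀ x ∈ S, ∀ i, eval x (P i) = 0)
    (hJ : ∀ x ∈ S, IsUnit (Matrix.of fun i j => eval x (pderiv j (P i))).det) (T : ℕ) :
    S.card * cnt σ T ≤ cnt σ (S.card + D * T) := by
  classical
  obtain ⟨b, hb1, hb0, hbd⟩ := sep S
  obtain ⟨B, hB⟩ : ∃ B : Finset (σ →₀ ℕ), B = (cnt_finite σ T).toFinset := ⟨_, rfl⟩
  have hBmem : ∀ β, β ∈ B ↔ ∑ i, β i ≤ T := by
    intro β
    rw [hB, Set.Finite.mem_toFinset, Set.mem_ofPred_eq, sum_eq]
  have hBcard : B.card = cnt σ T := by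
    rw [hB, cnt, Nat.card_eq_card_finite_toFinset (cnt_finite σ T)]
  have hdeg : ∀ (x : σ → F) (β : σ →₀ ℕ), β ∈ B →
      (b x * ∏ i, P i ^ β i).totalDegree ≤ S.card + D * T := by
    intro x β hβ
    refine (totalDegree_mul _ _).trans (add_le_add (hbd x) ?_)
    refine (totalDegree_finsetProd _ _).trans ?_
    calc ∑ i, (P i ^ β i).totalDegree ≤ ∑ i, D * β i := by
          refine Finset.sum_le_sum fun i _ => (totalDegree_pow _ _).trans ?_
          rw [mul_comm]
          exact Nat.mul_le_mul_right _ (hD i)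
      _ = D * ∑ i, β i := by rw [Finset.mul_sum]
      _ ≤ D * T := Nat.mul_le_mul_left _ ((hBmem β).1 hβ)
  obtain ⟨v, hv⟩ : ∃ v : ↥S × ↥B → restrictTotalDegree (σ) F (S.card + D * T),
      ∀ i, (v i : MvPolynomial (σ) F) = b i.1 * ∏ k, P k ^ i.2.1 k :=
    ⟨fun i => ⟨b i.1 * ∏ k, P k ^ i.2.1 k, (mem_restrictTotalDegree _ _ _).2 (hdeg i.1 i.2.1 i.2.2)⟩, fun _ => rfl⟩
  have hli : LinearIndependent F v := by
    rw [Fintype.linearIndependent_iff]
    intro g hg
    obtain ⟨g', hg'⟩ : ∃ g' : (σ → F) → (σ →₀ ℕ) → F, ∀ (x : ↥S) (β : ↥B), g' x β = g (x, β) :=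
      ⟨fun x β => if h : x ∈ S ∧ β ∈ B then g (⟨x, h.1⟩, ⟨β, h.2⟩) else 0, fun x β =>
        dif_pos (⟨x.2, β.2⟩ : (x : σ → F) ∈ S ∧ (β : σ →₀ ℕ) ∈ B)⟩
    have h1 : ∑ x ∈ S, ∑ β ∈ B, C (g' x β) * (b x * ∏ i, P i ^ β i) = 0 := by
      have h2 := congrArg Subtype.val hg
      rw [AddSubmonoidClass.coe_finsetSum, ZeroMemClass.coe_zero, Fintype.sum_prod_type] at h2
      rw [← h2, ← Finset.sum_coe_sort S]
      refine Finset.sum_congr rfl fun x _ => ?_
      rw [← Finset.sum_coe_sort B]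
      refine Finset.sum_congr rfl fun β _ => ?_
      rw [hg', Submodule.coe_smul, hv, smul_eq_C_mul]
    intro i
    rw [← hg']
    exact indep P S h0 hJ b hb1 hb0 B g' h1 _ i.2 i.2.2 rfl i.1 i.1.2
  have hfin : Finite {n : σ →₀ ℕ | (n.sum fun _ e => e) ≤ S.card + D * T} := (cnt_finite σ _).to_subtype
  have hbas := basisRestrictSupport F {n : σ →₀ ℕ | (n.sum fun _ e => e) ≤ S.card + D * T}
  have hmf : Module.Finite F (restrictTotalDegree (σ) F (S.card + D * T)) := Module.Finite.of_basis hbas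
  have h1 := hli.fintype_card_le_finrank
  have h2 : Module.finrank F (restrictTotalDegree (σ) F (S.card + D * T)) = cnt σ (S.card + D * T) :=
    Module.finrank_eq_nat_card_basis hbas
  rw [h2, Fintype.card_prod, Fintype.card_coe, Fintype.card_coe, hBcard] at h1
  exact h1

private theorem growth {m M c : ℕ} (σ : Type*) [Fintype σ] (hm : M < m) (hM : 1 ≤ M) (h : ∀ T, m * cnt σ T ≤ M * cnt σ (T + c)) : False := by
  have h1 : ∀ j : ℕ, m ^ j ≤ M ^ j * cnt σ (j * c) := by
    intro j
    induction j with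
    | zero => rw [pow_zero, pow_zero, one_mul, zero_mul]; exact cnt_zero σ
    | succ j ih =>
      calc m ^ (j + 1) = m * m ^ j := by ring
        _ ≤ m * (M ^ j * cnt σ (j * c)) := Nat.mul_le_mul_left _ ih
        _ = M ^ j * (m * cnt σ (j * c)) := by ring
        _ ≤ M ^ j * (M * cnt σ (j * c + c)) := Nat.mul_le_mul_left _ (h _)
        _ = M ^ (j + 1) * cnt σ ((j + 1) * c) := by
            rw [show j * c + c = (j + 1) * c by ring]
            ring
  have hM0 : (0 : ℝ) < M := by exact_mod_cast hM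
  have hr : (1 : ℝ) < (m : ℝ) / M := by
    rw [one_lt_div hM0]
    exact_mod_cast hm
  have h2 : ∀ j : ℕ, 1 ≤ j → ((m : ℝ) / M) ^ j ≤ ((c : ℝ) + 1) ^ Fintype.card σ * (j : ℝ) ^ Fintype.card σ := by
    intro j hj
    have h3 := (h1 j).trans (Nat.mul_le_mul_left _ (cnt_le σ (j * c)))
    have h4 : j * c + 1 ≤ (c + 1) * j := by nlinarith
    have h5 := h3.trans (Nat.mul_le_mul_left _ (Nat.pow_le_pow_left h4 _))
    have h6 : (m : ℝ) ^ j ≤ (M : ℝ) ^ j * (((c : ℝ) + 1) * j) ^ Fintype.card σ := by exact_mod_cast h5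
    rw [div_pow, div_le_iff₀ (pow_pos hM0 j), ← mul_pow, mul_comm _ ((M : ℝ) ^ j)]
    exact h6
  have h3 := tendsto_pow_const_div_const_pow_of_one_lt (Fintype.card σ) hr
  have h4 : (0 : ℝ) < 1 / (((c : ℝ) + 1) ^ Fintype.card σ + 1) := by positivity
  obtain ⟨j, hj1, hj2⟩ := ((h3.eventually (gt_mem_nhds h4)).and (Filter.eventually_ge_atTop 1)).exists
  have h5 := h2 j hj2
  have h6 : (0 : ℝ) < ((m : ℝ) / M) ^ j := by positivity
  have hj0 : (0 : ℝ) < (j : ℝ) ^ Fintype.card σ := by
    have : (0 : ℝ) < j := by exact_mod_cast hj2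
    positivity
  rw [div_lt_div_iff₀ h6 (by positivity), one_mul] at hj1
  nlinarith

/-- **Nonsingular Bezout.** -/
theorem bez (P : σ → MvPolynomial (σ) F) (D : ℕ) (hD : ∀ i, (P i).totalDegree ≤ D)
    (S : Finset (σ → F)) (h0 : ∀ x ∈ S, ∀ i, eval x (P i) = 0)
    (hJ : ∀ x ∈ S, IsUnit (Matrix.of fun i j => eval x (pderiv j (P i))).det) : S.card ≤ D ^ Fintype.card σ := by
  classical
  rcases isEmpty_or_nonempty σ with hs | hs
  · rw [Fintype.card_eq_zero, pow_zero]
    exact Finset.card_le_one.2 fun x _ y _ => Subsingleton.elim x y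
  rcases Nat.eq_zero_or_pos D with rfl | hD1
  · rw [zero_pow Fintype.card_ne_zero]
    refine Nat.le_of_eq (Finset.card_eq_zero.2 (Finset.eq_empty_of_forall_notMem fun x hx => ?_))
    have h1 := hJ x hx
    have h2 : (Matrix.of fun i j => eval x (pderiv j (P i))) = 0 := by
      ext i j
      have h3 : P i = C (coeff 0 (P i)) := totalDegree_eq_zero_iff_eq_C.1 (Nat.le_zero.1 (hD i))
      rw [Matrix.of_apply, h3, pderiv_C, map_zero, Matrix.zero_apply]
    rw [h2, Matrix.det_zero] at h1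
    exact not_isUnit_zero h1
  by_contra hcon
  push Not at hcon
  refine growth (c := S.card) σ hcon (Nat.one_le_pow _ _ hD1) fun T => ?_
  refine (card_mul_le P D hD S h0 hJ T).trans (le_trans (cnt_mono σ ?_) (cnt_div σ hD1 (T + S.card)))
  rw [Nat.mul_add, add_comm]
  exact Nat.add_le_add_left (Nat.le_mul_of_pos_left _ hD1) _

end Pool.Agent.H34.WB
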