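import Pool.Agent.H34.WB.Bez

/-!
# Nonsingular Bezout, rectangular systems

`P : ι → F[X_j, j in σ]` of degree at most `D`, `M_x` the Jacobian matrix at `x`.
`bez_inj`: at most `2^|ι| D^|σ|` zeros with `M_x` injective (choose an invertible square block of rows).
`bez_surj`: at most `2^|σ| D^|ι| q^(|σ| - |ι|)` zeros with `M_x` surjective (choose a block of columns, fix the other variables).
-/

set_option autoImplicit false
set_option linter.unusedSectionVars false

namespace Pool.Agent.H34.WB

open MvPolynomial

variable {F : Type*} [Field F] {σ ι : Type*} [Fintype σ] [DecidableEq σ] [Fintype ι] [DecidableEq ι]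

private theorem minor {τ : Type*} [Fintype τ] (v : ι → (τ → F)) (h : Submodule.span F (Set.range v) = ⊤) :
    ∃ T : Finset ι, T.card = Fintype.card τ ∧ LinearIndependent F (fun i : T => v i) := by
  classical
  obtain ⟨κ, a, ha, hsp, hli⟩ := exists_linearIndependent' F v
  have : Finite κ := Finite.of_injective a ha
  have : Fintype κ := Fintype.ofFinite κ
  have h1 := finrank_span_eq_card hli
  rw [hsp, h, finrank_top, Module.finrank_fintype_fun_eq_card] at h1
  refine ⟨Finset.univ.image a, ?_, ?_⟩
  · rw [Finset.card_image_of_injective _ ha, Finset.card_univ, h1]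
  · have h2 : ∀ t : ↥(Finset.univ.image a), ∃ k, a k = t := by
      intro t
      obtain ⟨k, -, hk⟩ := Finset.mem_image.1 t.2
      exact ⟨k, hk⟩
    choose g hg using h2
    have hginj : Function.Injective g := by
      intro t t' h
      apply Subtype.ext
      rw [← hg t, ← hg t', h]
    have h3 := hli.comp g hginj
    have h4 : (v ∘ a) ∘ g = fun i : ↥(Finset.univ.image a) => v i := by
      funext t
      rw [Function.comp_apply, Function.comp_apply, hg]
    rwa [h4] at h3

private theorem rows_span (M : Matrix ι σ F) (h : Function.Injective M.mulVec) :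
    Submodule.span F (Set.range M.row) = ⊤ := by
  have h1 : M.rank = Fintype.card σ := by
    have h2 : Function.Injective M.mulVecLin := h
    rw [Matrix.rank, LinearMap.finrank_range_of_inj h2, Module.finrank_fintype_fun_eq_card]
  rw [← Matrix.rank_transpose, Matrix.rank, Matrix.range_mulVecLin] at h1
  refine Submodule.eq_top_of_finrank_eq ?_
  rw [Module.finrank_fintype_fun_eq_card, ← h1]
  rfl

private theorem cols_span (M : Matrix ι σ F) (h : Function.Surjective M.mulVec) :
    Submodule.span F (Set.range M.col) = ⊤ := by
  rw [← Matrix.range_mulVecLin]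
  exact LinearMap.range_eq_top.2 h

private theorem card_le_sum {α β : Type*} [DecidableEq α] (S : Finset α) (f : Finset β) (p : α → β → Prop) [∀ x T, Decidable (p x T)]
    (h : ∀ x ∈ S, ∃ T ∈ f, p x T) (N : ℕ) (hN : ∀ T ∈ f, (S.filter fun x => p x T).card ≤ N) :
    S.card ≤ f.card * N := by
  have h1 : S ⊆ f.biUnion fun T => S.filter fun x => p x T := by
    intro x hx
    obtain ⟨T, hT, hp⟩ := h x hx
    exact Finset.mem_biUnion.2 ⟨T, hT, Finset.mem_filter.2 ⟨hx, hp⟩⟩
  exact (Finset.card_le_card h1).trans (Finset.card_biUnion_le_card_mul _ _ _ hN)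

/-- **Zeros with injective Jacobian.** -/
theorem bez_inj (P : ι → MvPolynomial σ F) (D : ℕ) (hD : ∀ i, (P i).totalDegree ≤ D)
    (S : Finset (σ → F)) (h0 : ∀ x ∈ S, ∀ i, eval x (P i) = 0)
    (hJ : ∀ x ∈ S, Function.Injective (Matrix.of fun i j => eval x (pderiv j (P i))).mulVec) :
    S.card ≤ 2 ^ Fintype.card ι * D ^ Fintype.card σ := by
  classical
  have h1 := card_le_sum S (Finset.univ : Finset (Finset ι)) (fun x T => T.card = Fintype.card σ ∧
    LinearIndependent F (fun i : T => (Matrix.of fun i j => eval x (pderiv j (P i))).row i)) (fun x hx => by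
      obtain ⟨T, hT⟩ := minor _ (rows_span _ (hJ x hx))
      exact ⟨T, Finset.mem_univ _, hT⟩) (D ^ Fintype.card σ) (fun T _ => by
      by_cases hT : T.card = Fintype.card σ
      · have e : σ ≃ ↥T := Fintype.equivOfCardEq (by rw [Fintype.card_coe, hT])
        refine bez (fun j => P (e j)) D (fun j => hD _) _ (fun x hx j => h0 x (Finset.mem_filter.1 hx).1 _)
          fun x hx => ?_
        have h2 := (Finset.mem_filter.1 hx).2.2.comp e e.injective
        rw [← Matrix.isUnit_iff_isUnit_det, ← Matrix.linearIndependent_rows_iff_isUnit]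
        exact h2
      · have h2 : (S.filter fun x => T.card = Fintype.card σ ∧
            LinearIndependent F (fun i : T => (Matrix.of fun i j => eval x (pderiv j (P i))).row i)) = ∅ :=
          Finset.filter_eq_empty_iff.2 fun x _ h => hT h.1
        rw [h2, Finset.card_empty]
        exact Nat.zero_le _)
  rwa [Finset.card_univ, Fintype.card_finset] at h1

/-- fixing the variables outside `T` -/
private noncomputable def fixv (T : Finset σ) (z : σ → F) : MvPolynomial σ F →ₐ[F] MvPolynomial T F :=
  aeval fun j => if h : j ∈ T then X ⟨j, h⟩ else C (z j)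

private theorem fixv_deg (T : Finset σ) (z : σ → F) (p : MvPolynomial σ F) :
    (fixv T z p).totalDegree ≤ p.totalDegree := by
  rw [fixv, aeval_def, eval₂_eq']
  refine totalDegree_finsetSum_le fun d hd => ?_
  refine (totalDegree_mul _ _).trans ?_
  have h1 : (algebraMap F (MvPolynomial T F) (coeff d p)).totalDegree = 0 := by
    rw [algebraMap_eq, totalDegree_C]
  rw [h1, zero_add]
  refine (totalDegree_finsetProd _ _).trans ?_
  refine le_trans ?_ (le_totalDegree hd)
  rw [Finsupp.sum_fintype _ _ fun _ => rfl]
  refine Finset.sum_le_sum fun j _ => (totalDegree_pow _ _).trans ?_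
  have h2 : ((if h : j ∈ T then X ⟨j, h⟩ else C (z j)) : MvPolynomial T F).totalDegree ≤ 1 := by
    split_ifs with h
    · exact (totalDegree_X _).le
    · rw [totalDegree_C]
      exact Nat.zero_le _
  calc d j * _ ≤ d j * 1 := Nat.mul_le_mul_left _ h2
    _ = d j := mul_one _

private theorem fixv_eval (T : Finset σ) (z x : σ → F) (hx : ∀ j, j ∉ T → x j = z j) (p : MvPolynomial σ F) :
    eval (fun j : T => x j) (fixv T z p) = eval x p := by
  induction p using MvPolynomial.induction_on with
  | C a => rw [fixv, aeval_C, algebraMap_eq, eval_C, eval_C]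
  | add p q hp hq => rw [map_add, map_add, hp, hq, map_add]
  | mul_X p j hp =>
    rw [map_mul, map_mul, hp, map_mul, eval_X, fixv, aeval_X]
    congr 1
    split_ifs with h
    · rw [eval_X]
    · rw [eval_C, hx j h]

private theorem fixv_pderiv (T : Finset σ) (z x : σ → F) (hx : ∀ j, j ∉ T → x j = z j) (k : T)
    (p : MvPolynomial σ F) :
    eval (fun j : T => x j) (pderiv k (fixv T z p)) = eval x (pderiv (k : σ) p) := by
  induction p using MvPolynomial.induction_on with
  | C a => rw [fixv, aeval_C, algebraMap_eq, pderiv_C, pderiv_C, map_zero, map_zero]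
  | add p q hp hq => rw [map_add, map_add, map_add, map_add, map_add, hp, hq]
  | mul_X p j hp =>
    rw [map_mul, Derivation.leibniz, Derivation.leibniz, pderiv_X, smul_eq_mul, smul_eq_mul, smul_eq_mul,
      smul_eq_mul, map_add, map_add, map_mul, map_mul, map_mul, map_mul, hp, fixv_eval T z x hx, fixv_eval T z x hx,
      eval_X]
    congr 2
    rw [fixv, aeval_X]
    by_cases hj : j ∈ T
    · rw [dif_pos hj, pderiv_X]
      by_cases hjk : j = k
      · have h1 : (⟨j, hj⟩ : T) = k := Subtype.ext hjk
        rw [h1, hjk, Pi.single_eq_same, Pi.single_eq_same, map_one, map_one]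
      · have h1 : (⟨j, hj⟩ : T) ≠ k := fun h => hjk (congrArg Subtype.val h)
        rw [Pi.single_eq_of_ne h1, Pi.single_eq_of_ne hjk, map_zero, map_zero]
    · rw [dif_neg hj, pderiv_C, map_zero]
      have h1 : j ≠ k := fun h => hj (h ▸ k.2)
      rw [Pi.single_eq_of_ne h1, map_zero]

/-- **Zeros with surjective Jacobian.** -/
theorem bez_surj [Fintype F] (P : ι → MvPolynomial σ F) (D : ℕ) (hD : ∀ i, (P i).totalDegree ≤ D)
    (S : Finset (σ → F)) (h0 : ∀ x ∈ S, ∀ i, eval x (P i) = 0)
    (hJ : ∀ x ∈ S, Function.Surjective (Matrix.of fun i j => eval x (pderiv j (P i))).mulVec) :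
    S.card ≤ 2 ^ Fintype.card σ * (D ^ Fintype.card ι * Fintype.card F ^ (Fintype.card σ - Fintype.card ι)) := by
  classical
  have h1 := card_le_sum S (Finset.univ : Finset (Finset σ)) (fun x T => T.card = Fintype.card ι ∧
    LinearIndependent F (fun i : T => (Matrix.of fun i j => eval x (pderiv j (P i))).col i)) (fun x hx => by
      obtain ⟨T, hT⟩ := minor _ (cols_span _ (hJ x hx))
      exact ⟨T, Finset.mem_univ _, hT⟩) (D ^ Fintype.card ι * Fintype.card F ^ (Fintype.card σ - Fintype.card ι))
      (fun T _ => by
      by_cases hT : T.card = Fintype.card ι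
      · have e : ↥T ≃ ι := Fintype.equivOfCardEq (by rw [Fintype.card_coe, hT])
        obtain ⟨S', hS'⟩ : ∃ S', S' = S.filter fun x => T.card = Fintype.card ι ∧
          LinearIndependent F (fun i : T => (Matrix.of fun i j => eval x (pderiv j (P i))).col i) := ⟨_, rfl⟩
        rw [← hS']
        -- fibres over the values outside `T`
        have h2 : S'.card ≤ (D ^ Fintype.card ι) *
            (Finset.univ : Finset (↥(Tᶜ : Finset σ) → F)).card := by
          refine Finset.card_le_mul_card_image_of_maps_to (f := fun x => fun j : ↥(Tᶜ : Finset σ) => x j)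
            (fun x _ => Finset.mem_univ _) _ fun w _ => ?_
          obtain ⟨z, hz⟩ : ∃ z : σ → F, ∀ j : ↥(Tᶜ : Finset σ), z j = w j :=
            ⟨fun j => if h : j ∈ (Tᶜ : Finset σ) then w ⟨j, h⟩ else 0, fun j => dif_pos j.2⟩
          have hz' : ∀ x ∈ S'.filter (fun x => (fun j : ↥(Tᶜ : Finset σ) => x j) = w), ∀ j, j ∉ T → x j = z j := by
            intro x hx j hj
            have h3 := congrFun (Finset.mem_filter.1 hx).2 ⟨j, Finset.mem_compl.2 hj⟩
            exact h3.trans (hz ⟨j, Finset.mem_compl.2 hj⟩).symm
          have h3 : (S'.filter (fun x => (fun j : ↥(Tᶜ : Finset σ) => x j) = w)).card =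
              ((S'.filter (fun x => (fun j : ↥(Tᶜ : Finset σ) => x j) = w)).image fun x => fun j : T => x j).card := by
            refine (Finset.card_image_of_injOn fun x hx y hy hxy => ?_).symm
            funext j
            by_cases hj : j ∈ T
            · exact congrFun hxy ⟨j, hj⟩
            · rw [hz' x hx j hj, hz' y hy j hj]
          have hc : Fintype.card ι = Fintype.card ↥T := by rw [Fintype.card_coe, hT]
          rw [h3, hc]
          refine bez (fun k : T => fixv T z (P (e k))) D (fun k => (fixv_deg _ _ _).trans (hD _)) _ ?_ ?_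
          · intro x' hx' k
            obtain ⟨x, hx, rfl⟩ := Finset.mem_image.1 hx'
            rw [fixv_eval T z x (hz' x hx)]
            have hx2 := (Finset.mem_filter.1 hx).1
            rw [hS'] at hx2
            exact h0 x (Finset.mem_filter.1 hx2).1 _
          · intro x' hx'
            obtain ⟨x, hx, rfl⟩ := Finset.mem_image.1 hx'
            have hx2 := (Finset.mem_filter.1 hx).1
            rw [hS'] at hx2
            have hli := (Finset.mem_filter.1 hx2).2.2
            have hM : (Matrix.of fun i j => eval (fun j : T => x j) (pderiv j (fixv T z (P (e i))))) =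
                Matrix.of fun i j : T => eval x (pderiv (j : σ) (P (e i))) := by
              ext i j
              rw [Matrix.of_apply, Matrix.of_apply, fixv_pderiv T z x (hz' x hx)]
            rw [hM, ← Matrix.isUnit_iff_isUnit_det, ← Matrix.linearIndependent_cols_iff_isUnit]
            have h4 := hli.map' (LinearMap.funLeft F F e) (LinearMap.ker_eq_bot.2
              (LinearMap.funLeft_injective_of_surjective F F e e.surjective))
            exact h4
        refine h2.trans (le_of_eq ?_)
        rw [Finset.card_univ, Fintype.card_fun, Fintype.card_coe, Finset.card_compl, hT]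
      · have h2 : (S.filter fun x => T.card = Fintype.card ι ∧
            LinearIndependent F (fun i : T => (Matrix.of fun i j => eval x (pderiv j (P i))).col i)) = ∅ :=
          Finset.filter_eq_empty_iff.2 fun x _ h => hT h.1
        rw [h2, Finset.card_empty]
        exact Nat.zero_le _)
  rwa [Finset.card_univ, Fintype.card_finset] at h1

end Pool.Agent.H34.WB
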